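import Mathlib

/-!
For a finite `p`-group `P` of order `q`, the group ring `𝔽_p[P]` has a descending filtration
`W 0 ⊇ W 1 ⊇ ⋯ ⊇ W q = 0` with `W a * W b ⊆ W (a+b)` and `g - 1 ∈ W 1`.
-/

namespace Pool.Agent.H99.OrderedEGZ

open Finset

variable (p : ℕ) [Fact p.Prime] (P : Type*) [Group P]

/-- The group ring of `P` over the prime field. -/
abbrev GR := MonoidAlgebra (ZMod p) P

variable {P}

/-- The group element `g` in the group ring. -/
noncomputable def el (g : P) : GR p P := MonoidAlgebra.of (ZMod p) P g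

theorem el_one : el p (1 : P) = 1 := map_one _

theorem el_mul (g h : P) : el p (g * h) = el p g * el p h := map_mul _ _ _

variable (P)

/-- Ascending chain: `V 0 = 0`, `V (k+1) = {v | ∀ g, (g - 1) * v ∈ V k}`. -/
noncomputable def V : ℕ → Submodule (ZMod p) (GR p P)
  | 0 => ⊥
  | k + 1 =>
    { carrier := {v | ∀ g : P, (el p g - 1) * v ∈ V k}
      add_mem' := by
        intro a b ha hb g
        rw [mul_add]
        exact (V k).add_mem (ha g) (hb g)
      zero_mem' := by
        intro g
        rw [mul_zero]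
        exact (V k).zero_mem
      smul_mem' := by
        intro c v hv g
        rw [mul_smul_comm]
        exact (V k).smul_mem c (hv g) }

variable {P}

theorem mem_V_zero {v : GR p P} : v ∈ V p P 0 ↔ v = 0 := by
  show v ∈ (⊥ : Submodule (ZMod p) (GR p P)) ↔ _
  exact Submodule.mem_bot _

theorem mem_V_succ {k : ℕ} {v : GR p P} :
    v ∈ V p P (k + 1) ↔ ∀ g : P, (el p g - 1) * v ∈ V p P k := Iff.rfl

theorem V_le_succ (k : ℕ) : V p P k ≤ V p P (k + 1) := by
  induction k with
  | zero =>
    intro v hv
    rw [mem_V_zero] at hv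
    rw [hv]
    exact Submodule.zero_mem _
  | succ k ih =>
    intro v hv
    rw [mem_V_succ] at hv ⊢
    intro g
    exact ih (hv g)

theorem V_mono : Monotone (V p P) := monotone_nat_of_le_succ (V_le_succ p)

theorem el_mul_mem {k : ℕ} {v : GR p P} (hv : v ∈ V p P k) (g : P) : el p g * v ∈ V p P k := by
  have h1 : (el p g - 1) * v ∈ V p P k := by
    cases k with
    | zero =>
      rw [mem_V_zero] at hv
      rw [hv, mul_zero]
      exact Submodule.zero_mem _
    | succ k => exact V_le_succ p k (mem_V_succ p |>.mp hv g)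
  have h2 : el p g * v = (el p g - 1) * v + v := by rw [sub_mul, one_mul, sub_add_cancel]
  rw [h2]
  exact (V p P k).add_mem h1 hv

/-- Left multiplication by `g`. -/
noncomputable def Lm (g : P) : GR p P →ₗ[ZMod p] GR p P := LinearMap.mulLeft (ZMod p) (el p g)

theorem Lm_apply (g : P) (v : GR p P) : Lm p g v = el p g * v := rfl

theorem Lm_map (k : ℕ) (g : P) : V p P k ≤ (V p P k).comap (Lm p g) := by
  intro v hv
  rw [Submodule.mem_comap, Lm_apply]
  exact el_mul_mem p hv g

/-- The action of `P` on the quotient of the group ring by `V k`. -/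
@[instance_reducible] noncomputable def quotAction (k : ℕ) : MulAction P (GR p P ⧸ V p P k) where
  smul g x := (V p P k).mapQ (V p P k) (Lm p g) (Lm_map p k g) x
  one_smul x := by
    obtain ⟨v, rfl⟩ := Submodule.mkQ_surjective _ x
    show (V p P k).mapQ (V p P k) (Lm p 1) (Lm_map p k 1) ((V p P k).mkQ v) = _
    rw [Submodule.mkQ_apply, Submodule.mapQ_apply, Lm_apply, el_one, one_mul]
  mul_smul g h x := by
    obtain ⟨v, rfl⟩ := Submodule.mkQ_surjective _ x
    show (V p P k).mapQ (V p P k) (Lm p (g * h)) (Lm_map p k _) ((V p P k).mkQ v) =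
      (V p P k).mapQ (V p P k) (Lm p g) (Lm_map p k g)
        ((V p P k).mapQ (V p P k) (Lm p h) (Lm_map p k h) ((V p P k).mkQ v))
    simp only [Submodule.mkQ_apply, Submodule.mapQ_apply, Lm_apply, el_mul, mul_assoc]

/-- Growth of the chain. -/
theorem V_lt_succ [Finite P] (hP : IsPGroup p P) (k : ℕ) (hk : V p P k ≠ ⊤) :
    V p P k < V p P (k + 1) := by
  classical
  have : Fintype P := Fintype.ofFinite P
  have : Finite (GR p P) := Module.finite_of_finite (ZMod p)
  let _ := quotAction p (P := P) k
  have : Nontrivial (GR p P ⧸ V p P k) := Submodule.Quotient.nontrivial_iff.mpr hk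
  have : Finite (GR p P ⧸ V p P k) := Finite.of_surjective _ (Submodule.mkQ_surjective (V p P k))
  have hcard : p ∣ Nat.card (GR p P ⧸ V p P k) := by
    have h1 : Nat.card (GR p P ⧸ V p P k) = p ^ Module.finrank (ZMod p) (GR p P ⧸ V p P k) := by
      have := Module.natCard_eq_pow_finrank (K := ZMod p) (V := GR p P ⧸ V p P k)
      rwa [Nat.card_zmod] at this
    rw [h1]
    apply dvd_pow_self
    exact (Module.finrank_pos (R := ZMod p) (M := GR p P ⧸ V p P k)).ne'
  have h0 : (0 : GR p P ⧸ V p P k) ∈ MulAction.fixedPoints P (GR p P ⧸ V p P k) := by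
    intro g
    show (V p P k).mapQ (V p P k) (Lm p g) (Lm_map p k g) 0 = 0
    exact map_zero _
  obtain ⟨b, hb, hb0⟩ := hP.exists_fixed_point_of_prime_dvd_card_of_fixed_point
    (GR p P ⧸ V p P k) hcard h0
  obtain ⟨v, rfl⟩ := Submodule.mkQ_surjective _ b
  refine lt_of_le_of_ne (V_le_succ p k) ?_
  intro heq
  apply hb0
  symm
  rw [Submodule.mkQ_apply, Submodule.Quotient.mk_eq_zero, heq, mem_V_succ]
  intro g
  have hg := hb g
  have hg' : (V p P k).mapQ (V p P k) (Lm p g) (Lm_map p k g) ((V p P k).mkQ v)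
      = (V p P k).mkQ v := hg
  rw [Submodule.mkQ_apply, Submodule.mapQ_apply, Lm_apply, Submodule.Quotient.eq] at hg'
  rw [sub_mul, one_mul]
  exact hg'

theorem V_card [Finite P] (hP : IsPGroup p P) : V p P (Nat.card P) = ⊤ := by
  classical
  have : Fintype P := Fintype.ofFinite P
  have hfin : Module.finrank (ZMod p) (GR p P) = Nat.card P := by
    have : Module.finrank (ZMod p) (P →₀ ZMod p) = Fintype.card P := Module.finrank_finsupp_self _
    rw [Nat.card_eq_fintype_card, ← this]
    exact LinearEquiv.finrank_eq (MonoidAlgebra.coeffLinearEquiv (ZMod p))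
  have key : ∀ k, V p P k = ⊤ ∨ k ≤ Module.finrank (ZMod p) (V p P k) := by
    intro k
    induction k with
    | zero => right; exact Nat.zero_le _
    | succ k ih =>
      rcases ih with h | h
      · left
        exact top_unique (h ▸ V_le_succ p k)
      · by_cases hk : V p P k = ⊤
        · left
          exact top_unique (hk ▸ V_le_succ p k)
        · right
          have := Submodule.finrank_lt_finrank_of_lt (V_lt_succ p hP k hk)
          omega
  rcases key (Nat.card P) with h | h
  · exact h
  · apply Submodule.eq_top_of_finrank_eq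
    apply le_antisymm (Submodule.finrank_le _)
    rw [hfin]
    exact h

/-- The descending filtration. -/
def W (k : ℕ) : Set (GR p P) := {r | ∀ j : ℕ, ∀ v ∈ V p P j, r * v ∈ V p P (j - k)}

theorem W_add {k : ℕ} {r s : GR p P} (hr : r ∈ W p k) (hs : s ∈ W p k) : r + s ∈ W p k := by
  intro j v hv
  rw [add_mul]
  exact (V p P _).add_mem (hr j v hv) (hs j v hv)

theorem W_zero_mem (k : ℕ) : (0 : GR p P) ∈ W p k := by
  intro j v _
  rw [zero_mul]
  exact Submodule.zero_mem _

theorem W_one_mem : (1 : GR p P) ∈ W p 0 := by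
  intro j v hv
  rw [one_mul]
  exact hv

theorem W_anti {k l : ℕ} (h : k ≤ l) {r : GR p P} (hr : r ∈ W p l) : r ∈ W p k := by
  intro j v hv
  exact V_mono p (by omega) (hr j v hv)

theorem W_mul {k l : ℕ} {r s : GR p P} (hr : r ∈ W p k) (hs : s ∈ W p l) :
    r * s ∈ W p (k + l) := by
  intro j v hv
  rw [mul_assoc]
  have := hr (j - l) (s * v) (hs j v hv)
  have e : j - (k + l) = j - l - k := by omega
  rw [e]
  exact this

theorem W_el (g : P) : el p g - 1 ∈ W p 1 := by
  intro j v hv
  cases j with
  | zero =>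
    rw [mem_V_zero] at hv
    rw [hv, mul_zero]
    exact Submodule.zero_mem _
  | succ j => exact (mem_V_succ p).mp hv g

theorem W_card [Finite P] (hP : IsPGroup p P) {k : ℕ} (hk : Nat.card P ≤ k) {r : GR p P}
    (hr : r ∈ W p k) : r = 0 := by
  have h1 : (1 : GR p P) ∈ V p P (Nat.card P) := by
    rw [V_card p hP]
    exact Submodule.mem_top
  have h2 := hr (Nat.card P) 1 h1
  rw [mul_one, Nat.sub_eq_zero_of_le hk, mem_V_zero] at h2
  exact h2

theorem W_sum {ι : Type*} {k : ℕ} (s : Finset ι) (f : ι → GR p P) (h : ∀ i ∈ s, f i ∈ W p k) :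
    ∑ i ∈ s, f i ∈ W p k := by
  classical
  induction s using Finset.induction_on with
  | empty => rw [Finset.sum_empty]; exact W_zero_mem p k
  | insert a s ha ih =>
    rw [Finset.sum_insert ha]
    exact W_add p (h a (mem_insert_self a s)) (ih fun i hi => h i (mem_insert_of_mem hi))

end Pool.Agent.H99.OrderedEGZ
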