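import Mathlib
import Pool.Agent.H99.PGroupRing

/-!
Functions on subsets of an index set `S` with values in `𝔽_p[P]` whose Möbius coefficients at `B`
lie in the `|B|`-th step of the filtration.  For them, the sum over all `q`-subsets of a set of
size `2q-1`, where `q = |P|`, equals the value at the empty set.
-/

namespace Pool.Agent.H99.OrderedEGZ

open Finset

variable (p : ℕ) [Fact p.Prime] {P : Type*} [Group P]

/-- `Low p S F`: on subsets `J` of `S`, `F J = ∑ B ⊆ J, c B` with `c B ∈ W |B|`. -/
def Low (S : Finset ℕ) (F : Finset ℕ → GR p P) : Prop :=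
  ∃ c : Finset ℕ → GR p P, (∀ B, c B ∈ W p B.card) ∧ ∀ J ⊆ S, F J = ∑ B ∈ J.powerset, c B

theorem Low.one (S : Finset ℕ) : Low p S (fun _ => (1 : GR p P)) := by
  classical
  refine ⟨fun B => if B = ∅ then 1 else 0, ?_, ?_⟩
  · intro B
    by_cases hB : B = ∅
    · simp only [hB, if_true, card_empty]
      exact W_one_mem p
    · simp only [hB, if_false]
      exact W_zero_mem p _
  · intro J _
    rw [Finset.sum_ite_eq' J.powerset ∅ (fun _ => (1 : GR p P)), if_pos (empty_mem_powerset J)]

theorem Low.single (S : Finset ℕ) (j : ℕ) (g : P) :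
    Low p S (fun J => if j ∈ J then el p g else 1) := by
  classical
  refine ⟨fun B => if B = ∅ then 1 else if B = {j} then el p g - 1 else 0, ?_, ?_⟩
  · intro B
    by_cases hB : B = ∅
    · simp only [hB, if_true, card_empty]
      exact W_one_mem p
    · by_cases hB' : B = {j}
      · simp only [hB', singleton_ne_empty, if_false, if_true, card_singleton]
        exact W_el p g
      · simp only [hB, hB', if_false]
        exact W_zero_mem p _
  · intro J _
    have hsplit : ∀ B : Finset ℕ,
        (if B = ∅ then (1 : GR p P) else if B = {j} then el p g - 1 else 0)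
        = (if B = ∅ then 1 else 0) + (if B = {j} then el p g - 1 else 0) := by
      intro B
      by_cases hB : B = ∅
      · subst hB
        simp [(singleton_ne_empty j).symm]
      · simp [hB]
    rw [Finset.sum_congr rfl (fun B _ => hsplit B), Finset.sum_add_distrib,
      Finset.sum_ite_eq' J.powerset ∅ (fun _ => (1 : GR p P)), if_pos (empty_mem_powerset J),
      Finset.sum_ite_eq' J.powerset {j} (fun _ => el p g - 1)]
    beta_reduce
    by_cases hj : j ∈ J
    · rw [if_pos hj, if_pos (by rw [mem_powerset]; exact singleton_subset_iff.mpr hj)]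
      rw [add_sub_cancel]
    · rw [if_neg hj, if_neg (by rw [mem_powerset, singleton_subset_iff]; exact hj), add_zero]

theorem Low.mul {S : Finset ℕ} {F G : Finset ℕ → GR p P} (hF : Low p S F) (hG : Low p S G) :
    Low p S (fun J => F J * G J) := by
  classical
  obtain ⟨c, hc, hFc⟩ := hF
  obtain ⟨d, hd, hGd⟩ := hG
  refine ⟨fun E => ∑ x ∈ (E.powerset ×ˢ E.powerset).filter (fun x => x.1 ∪ x.2 = E),
    c x.1 * d x.2, ?_, ?_⟩
  · intro E
    apply W_sum
    rintro ⟨B, C⟩ hx
    rw [mem_filter] at hx
    have hE : B ∪ C = E := hx.2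
    have h1 : E.card ≤ B.card + C.card := by
      rw [← hE]; exact card_union_le B C
    exact W_anti p h1 (W_mul p (hc B) (hd C))
  · intro J hJ
    beta_reduce
    rw [hFc J hJ, hGd J hJ, Finset.sum_mul_sum, ← Finset.sum_product']
    rw [← Finset.sum_fiberwise_of_maps_to (s := J.powerset ×ˢ J.powerset) (t := J.powerset)
      (g := fun x => x.1 ∪ x.2)]
    · refine Finset.sum_congr rfl fun E hE => ?_
      rw [mem_powerset] at hE
      apply Finset.sum_congr
      · ext ⟨B, C⟩
        simp only [mem_filter, mem_product, mem_powerset]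
        constructor
        · rintro ⟨_, h⟩
          subst h
          exact ⟨⟨subset_union_left, subset_union_right⟩, rfl⟩
        · rintro ⟨⟨h1, h2⟩, h⟩
          exact ⟨⟨h1.trans hE, h2.trans hE⟩, h⟩
      · intro _ _; rfl
    · rintro ⟨B, C⟩ hx
      rw [mem_product, mem_powerset, mem_powerset] at hx
      rw [mem_powerset]
      exact union_subset hx.1 hx.2

theorem Low.congr {S : Finset ℕ} {F G : Finset ℕ → GR p P} (hF : Low p S F)
    (h : ∀ J ⊆ S, G J = F J) : Low p S G := by
  obtain ⟨c, hc, hFc⟩ := hF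
  exact ⟨c, hc, fun J hJ => (h J hJ).trans (hFc J hJ)⟩

/-- The number of `q`-subsets of `S` containing `B`. -/
theorem card_supersets (S B : Finset ℕ) (q : ℕ) (hB : B ⊆ S) (hq : B.card ≤ q) :
    ((S.powersetCard q).filter (fun J => B ⊆ J)).card
      = (S.card - B.card).choose (q - B.card) := by
  classical
  rw [← card_sdiff_of_subset hB, ← card_powersetCard]
  refine Finset.card_bij' (fun J _ => J \ B) (fun K _ => K ∪ B) ?_ ?_ ?_ ?_
  · intro J hJ
    rw [mem_filter, mem_powersetCard] at hJ
    rw [mem_powersetCard]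
    refine ⟨sdiff_subset_sdiff hJ.1.1 (Subset.refl B), ?_⟩
    rw [card_sdiff_of_subset hJ.2, hJ.1.2]
  · intro K hK
    rw [mem_powersetCard] at hK
    rw [mem_filter, mem_powersetCard]
    have hdis : Disjoint K B := disjoint_of_subset_left hK.1 sdiff_disjoint
    refine ⟨⟨union_subset (hK.1.trans sdiff_subset) hB, ?_⟩, subset_union_right⟩
    rw [card_union_of_disjoint hdis, hK.2]
    omega
  · intro J hJ
    rw [mem_filter] at hJ
    exact sdiff_union_of_subset hJ.2
  · intro K hK
    rw [mem_powersetCard] at hK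
    have hdis : Disjoint K B := disjoint_of_subset_left hK.1 sdiff_disjoint
    rw [union_sdiff_right, sdiff_eq_self_of_disjoint hdis]

open Polynomial in
theorem choose_cast (e b : ℕ) (hb : b < p ^ e) :
    (((2 * p ^ e - 1 - b).choose (p ^ e - b) : ℕ) : ZMod p) = if b = 0 then 1 else 0 := by
  have hq : 0 < p ^ e := pow_pos (Fact.out : p.Prime).pos e
  have h1 : ((X + 1 : (ZMod p)[X]) ^ (2 * p ^ e - 1 - b)).coeff (p ^ e - b)
      = (((2 * p ^ e - 1 - b).choose (p ^ e - b) : ℕ) : ZMod p) :=
    coeff_X_add_one_pow _ _ _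
  rw [← h1]
  have h2 : 2 * p ^ e - 1 - b = (p ^ e - 1 - b) + p ^ e := by omega
  rw [h2, pow_add, add_pow_char_pow, one_pow, mul_add, mul_one, coeff_add, coeff_X_add_one_pow,
    Nat.choose_eq_zero_of_lt (by omega : p ^ e - 1 - b < p ^ e - b)]
  by_cases hb0 : b = 0
  · subst hb0
    rw [if_pos rfl, Nat.sub_zero, Nat.sub_zero]
    have := coeff_mul_X_pow ((X + 1 : (ZMod p)[X]) ^ (p ^ e - 1)) (p ^ e) 0
    rw [zero_add] at this
    rw [this, coeff_X_add_one_pow, Nat.choose_zero_right]
    simp
  · rw [if_neg hb0, coeff_mul_X_pow', if_neg (by omega)]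
    simp

theorem Low.sum_powersetCard [Finite P] (hP : IsPGroup p P) {S : Finset ℕ}
    {F : Finset ℕ → GR p P} (hF : Low p S F) (hS : S.card = 2 * Nat.card P - 1) :
    ∑ J ∈ S.powersetCard (Nat.card P), F J = F ∅ := by
  classical
  obtain ⟨c, hc, hFc⟩ := hF
  obtain ⟨e, he⟩ := IsPGroup.iff_card.mp hP
  have h1 : ∑ J ∈ S.powersetCard (Nat.card P), F J
      = ∑ J ∈ S.powersetCard (Nat.card P), ∑ B ∈ J.powerset, c B :=
    Finset.sum_congr rfl fun J hJ => hFc J (mem_powersetCard.mp hJ).1
  have h2 : ∑ J ∈ S.powersetCard (Nat.card P), ∑ B ∈ J.powerset, c B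
      = ∑ B ∈ S.powerset, ∑ J ∈ (S.powersetCard (Nat.card P)).filter (fun J => B ⊆ J), c B := by
    apply Finset.sum_comm'
    intro J B
    rw [mem_powerset, mem_filter, mem_powerset]
    constructor
    · rintro ⟨hJ, hB⟩
      exact ⟨⟨hJ, hB⟩, hB.trans (mem_powersetCard.mp hJ).1⟩
    · rintro ⟨⟨hJ, hB⟩, _⟩
      exact ⟨hJ, hB⟩
  have h3 : ∀ B ∈ S.powerset,
      ∑ J ∈ (S.powersetCard (Nat.card P)).filter (fun J => B ⊆ J), c B
        = if B = ∅ then c ∅ else 0 := by
    intro B hB
    rw [mem_powerset] at hB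
    rw [Finset.sum_const]
    by_cases hle : Nat.card P ≤ B.card
    · have h0 : c B = 0 := W_card p hP hle (hc B)
      have hBne : B ≠ ∅ := by
        rintro rfl
        rw [card_empty] at hle
        have : 0 < Nat.card P := Nat.card_pos
        omega
      rw [h0, smul_zero, if_neg hBne]
    · push Not at hle
      rw [card_supersets S B (Nat.card P) hB hle.le, hS, ← Nat.cast_smul_eq_nsmul (ZMod p), he,
        choose_cast p e B.card (by rw [← he]; exact hle)]
      by_cases hBe : B = ∅
      · subst hBe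
        simp
      · have : B.card ≠ 0 := by rwa [Ne, card_eq_zero]
        rw [if_neg this, if_neg hBe, zero_smul]
  rw [h1, h2, Finset.sum_congr rfl h3, Finset.sum_ite_eq' S.powerset ∅ (fun _ => c ∅),
    if_pos (empty_mem_powerset S), hFc ∅ (empty_subset S), powerset_empty, sum_singleton]

end Pool.Agent.H99.OrderedEGZ
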