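import Mathlib

/-!
The Erdős–Ginzburg–Ziv theorem for every finite abelian group (in the unordered form, which is
all that is needed for abelian groups), and the extraction of disjoint product-one blocks.
-/

namespace Pool.Agent.H99.OrderedEGZ

open Finset

/-- `EGZ A`: every family of at least `2 * |A| - 1` elements of `A` has exactly `|A|` members
with product one. -/
def EGZ (A : Type*) [CommGroup A] : Prop :=
  ∀ (s : Finset ℕ) (y : ℕ → A), 2 * Nat.card A - 1 ≤ s.card →
    ∃ t ⊆ s, t.card = Nat.card A ∧ ∏ i ∈ t, y i = 1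

/-- Extraction of `k` disjoint blocks of size `|A|`, each with product one. -/
theorem EGZ.extract {A : Type*} [CommGroup A] [Finite A] (h : EGZ A) (y : ℕ → A) :
    ∀ (k : ℕ) (s : Finset ℕ), (k + 1) * Nat.card A - 1 ≤ s.card →
      ∃ T : ℕ → Finset ℕ,
        (∀ j < k, T j ⊆ s ∧ (T j).card = Nat.card A ∧ ∏ i ∈ T j, y i = 1) ∧
        (∀ i < k, ∀ j < k, i ≠ j → Disjoint (T i) (T j)) := by
  intro k
  induction k with
  | zero =>
    intro s _
    exact ⟨fun _ => ∅, fun j hj => absurd hj (Nat.not_lt_zero j),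
      fun i hi => absurd hi (Nat.not_lt_zero i)⟩
  | succ k ih =>
    intro s hs
    have hm : 0 < Nat.card A := Nat.card_pos
    have h1 : 2 * Nat.card A - 1 ≤ s.card := by
      refine le_trans ?_ hs
      apply Nat.sub_le_sub_right
      apply Nat.mul_le_mul_right
      omega
    obtain ⟨t, hts, htc, htp⟩ := h s y h1
    have h2 : (k + 1) * Nat.card A - 1 ≤ (s \ t).card := by
      rw [Finset.card_sdiff_of_subset hts, htc]
      have : (k + 1 + 1) * Nat.card A = (k + 1) * Nat.card A + Nat.card A := by ring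
      rw [this] at hs
      omega
    obtain ⟨T, hT1, hT2⟩ := ih (s \ t) h2
    refine ⟨fun j => if j = k then t else T j, ?_, ?_⟩
    · intro j hj
      by_cases hjk : j = k
      · simp only [hjk, if_true]
        exact ⟨hts, htc, htp⟩
      · simp only [hjk, if_false]
        obtain ⟨a, b, c⟩ := hT1 j (by omega)
        exact ⟨a.trans sdiff_subset, b, c⟩
    · intro i hi j hj hij
      by_cases hik : i = k
      · have hjk : j ≠ k := fun h => hij (hik.trans h.symm)
        simp only [hik, hjk, if_true, if_false]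
        exact (disjoint_sdiff).mono_right (hT1 j (by omega)).1
      · by_cases hjk : j = k
        · simp only [hik, hjk, if_true, if_false]
          exact ((disjoint_sdiff).mono_right (hT1 i (by omega)).1).symm
        · simp only [hik, hjk, if_false]
          exact hT2 i (by omega) j (by omega) hij

/-- The cyclic case, from Mathlib. -/
theorem EGZ.of_isCyclic {A : Type*} [CommGroup A] [Finite A] (hA : IsCyclic A) : EGZ A := by
  intro s y hs
  let e : Multiplicative (ZMod (Nat.card A)) ≃* A := zmodCyclicMulEquiv hA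
  obtain ⟨t, hts, htc, htp⟩ :=
    ZMod.erdos_ginzburg_ziv (n := Nat.card A) (fun i => Multiplicative.toAdd (e.symm (y i))) hs
  refine ⟨t, hts, htc, ?_⟩
  have h1 : ∏ i ∈ t, e.symm (y i) = 1 := by
    apply Multiplicative.toAdd.injective
    rw [toAdd_prod, htp, toAdd_one]
  have h2 : e.symm (∏ i ∈ t, y i) = 1 := by rw [map_prod, h1]
  exact (MulEquiv.map_eq_one_iff e.symm).mp h2

/-- The extension step. -/
theorem EGZ.of_subgroup {A : Type*} [CommGroup A] [Finite A] (H : Subgroup A)
    (h1 : EGZ H) (h2 : EGZ (A ⧸ H)) : EGZ A := by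
  intro s y hs
  have hcard : Nat.card A = Nat.card (A ⧸ H) * Nat.card H :=
    Subgroup.card_eq_card_quotient_mul_card_subgroup H
  have hH : 0 < Nat.card H := Nat.card_pos
  have hQ : 0 < Nat.card (A ⧸ H) := Nat.card_pos
  have hk : (2 * Nat.card H - 1 + 1) * Nat.card (A ⧸ H) - 1 ≤ s.card := by
    have : (2 * Nat.card H - 1 + 1) * Nat.card (A ⧸ H) = 2 * Nat.card A := by
      rw [Nat.sub_add_cancel (by omega), hcard]; ring
    rw [this]; exact hs
  obtain ⟨T, hT1, hT2⟩ := h2.extract (fun i => (y i : A ⧸ H)) (2 * Nat.card H - 1) s hk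
  have hmem : ∀ j < 2 * Nat.card H - 1, ∏ i ∈ T j, y i ∈ H := by
    intro j hj
    have := (hT1 j hj).2.2
    rw [← QuotientGroup.eq_one_iff, ← this]
    exact map_prod (QuotientGroup.mk' H) _ _
  classical
  let z : ℕ → H := fun j => if hj : ∏ i ∈ T j, y i ∈ H then ⟨_, hj⟩ else 1
  obtain ⟨J, hJs, hJc, hJp⟩ := h1 (range (2 * Nat.card H - 1)) z (by rw [card_range])
  have hJlt : ∀ j ∈ J, j < 2 * Nat.card H - 1 := fun j hj => mem_range.mp (hJs hj)
  have hdis : (J : Set ℕ).PairwiseDisjoint T := by
    intro i hi j hj hij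
    exact hT2 i (hJlt i hi) j (hJlt j hj) hij
  refine ⟨J.biUnion T, ?_, ?_, ?_⟩
  · intro i hi
    obtain ⟨j, hj, hij⟩ := mem_biUnion.mp hi
    exact (hT1 j (hJlt j hj)).1 hij
  · rw [card_biUnion (fun i hi j hj hij => hdis hi hj hij),
      sum_congr rfl (fun j hj => (hT1 j (hJlt j hj)).2.1), sum_const, smul_eq_mul, hJc, hcard,
      mul_comm]
  · rw [prod_biUnion hdis]
    have : ∏ j ∈ J, ∏ i ∈ T j, y i = ((∏ j ∈ J, z j : H) : A) := by
      rw [Subgroup.val_finsetProd]
      refine prod_congr rfl fun j hj => ?_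
      simp only [z, dif_pos (hmem j (hJlt j hj))]
    rw [this, hJp, Subgroup.coe_one]

/-- The Erdős–Ginzburg–Ziv theorem for all finite abelian groups. -/
theorem EGZ.all : ∀ (n : ℕ) (A : Type*) [CommGroup A] [Finite A], Nat.card A = n → EGZ A := by
  intro n
  induction n using Nat.strong_induction_on with
  | _ n ih =>
    intro A _ _ hn
    by_cases hcyc : IsCyclic A
    · exact EGZ.of_isCyclic hcyc
    · have hnt : Nontrivial A := by
        by_contra hnt
        rw [not_nontrivial_iff_subsingleton] at hnt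
        exact hcyc (isCyclic_of_subsingleton)
      obtain ⟨g, hg⟩ := exists_ne (1 : A)
      have hcard : Nat.card A = Nat.card (A ⧸ Subgroup.zpowers g) * Nat.card (Subgroup.zpowers g) :=
        Subgroup.card_eq_card_quotient_mul_card_subgroup _
      have hHpos : 0 < Nat.card (Subgroup.zpowers g) := Nat.card_pos
      have hQpos : 0 < Nat.card (A ⧸ Subgroup.zpowers g) := Nat.card_pos
      have hH1 : Nat.card (Subgroup.zpowers g) ≠ 1 := by
        rw [Nat.card_zpowers]
        intro h
        exact hg (orderOf_eq_one_iff.mp h)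
      have hQ1 : Nat.card (A ⧸ Subgroup.zpowers g) ≠ 1 := by
        intro h
        apply hcyc
        rw [h, one_mul] at hcard
        exact isCyclic_of_orderOf_eq_card g (by rw [hcard, Nat.card_zpowers])
      have hlt1 : Nat.card (Subgroup.zpowers g) < n := by
        rw [← hn, hcard]
        nlinarith [Nat.lt_of_le_of_ne hQpos (Ne.symm hQ1)]
      have hlt2 : Nat.card (A ⧸ Subgroup.zpowers g) < n := by
        rw [← hn, hcard]
        nlinarith [Nat.lt_of_le_of_ne hHpos (Ne.symm hH1)]
      exact EGZ.of_subgroup (Subgroup.zpowers g) (ih _ hlt1 _ rfl) (ih _ hlt2 _ rfl)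

end Pool.Agent.H99.OrderedEGZ
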