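import Mathlib
import Pool.Agent.H99.EGZAbelian
import Pool.Agent.H99.BlockCount

/-!
Ordered zero-sum subsequences in a direct product of a `p`-group and an abelian group.
-/

namespace Pool.Agent.H99.OrderedEGZ

open Finset

/-- Ordered product of `x i` over the indices `i < N` which lie in `I`. -/
def oprod {M : Type*} [Monoid M] (x : ℕ → M) (N : ℕ) (I : Finset ℕ) : M :=
  ((List.range N).map (fun i => if i ∈ I then x i else 1)).prod

theorem oprod_map {M K : Type*} [Monoid M] [Monoid K] (φ : M →* K) (x : ℕ → M) (N : ℕ)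
    (I : Finset ℕ) : φ (oprod x N I) = oprod (fun i => φ (x i)) N I := by
  unfold oprod
  rw [map_list_prod, List.map_map]
  congr 1
  apply List.map_congr_left
  intro i _
  simp only [Function.comp]
  split_ifs
  · rfl
  · exact map_one φ

theorem prod_map_ite {M ι : Type*} [Monoid M] (l : List ι) (q : ι → Prop) [DecidablePred q]
    (x : ι → M) :
    (l.map (fun i => if q i then x i else 1)).prod
      = ((l.filter (fun i => decide (q i))).map x).prod := by
  induction l with
  | nil => rfl
  | cons a l ih =>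
    by_cases h : q a
    · simp [h, ih]
    · simp [h, ih]

theorem filter_range_toFinset (N : ℕ) (I : Finset ℕ) (hI : I ⊆ range N) :
    ((List.range N).filter (fun i => decide (i ∈ I))).toFinset = I := by
  ext i
  rw [List.mem_toFinset, List.mem_filter, List.mem_range, decide_eq_true_iff]
  exact ⟨fun h => h.2, fun h => ⟨mem_range.mp (hI h), h⟩⟩

theorem filter_range_eq_sort (N : ℕ) (I : Finset ℕ) (hI : I ⊆ range N) :
    (List.range N).filter (fun i => decide (i ∈ I)) = I.sort (· ≤ ·) := by
  have hnd : ((List.range N).filter (fun i => decide (i ∈ I))).Nodup :=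
    List.Nodup.filter _ List.nodup_range
  have hpw : ((List.range N).filter (fun i => decide (i ∈ I))).Pairwise (· ≤ ·) :=
    List.Pairwise.filter _ (List.pairwise_le_range)
  have := (List.toFinset_sort (r := (· ≤ ·)) hnd).mpr hpw
  rw [filter_range_toFinset N I hI] at this
  exact this.symm

theorem oprod_comm {M : Type*} [CommMonoid M] (x : ℕ → M) (N : ℕ) (I : Finset ℕ)
    (hI : I ⊆ range N) : oprod x N I = ∏ i ∈ I, x i := by
  unfold oprod
  rw [prod_map_ite]
  have hnd : ((List.range N).filter (fun i => decide (i ∈ I))).Nodup :=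
    List.Nodup.filter _ List.nodup_range
  rw [← List.prod_toFinset x hnd, filter_range_toFinset N I hI]

/-- The ordered product as a product over the increasing enumeration. -/
theorem oprod_eq_ofFn {M : Type*} [Monoid M] (x : ℕ → M) (N k : ℕ) (I : Finset ℕ)
    (hI : I ⊆ range N) (hk : I.card = k) :
    oprod x N I = (List.ofFn (fun i : Fin k => x (I.orderEmbOfFin hk i))).prod := by
  unfold oprod
  rw [prod_map_ite, filter_range_eq_sort N I hI, ← Finset.listMap_orderEmbOfFin_finRange I hk,
    List.map_map, List.ofFn_eq_map]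
  rfl

variable (p : ℕ) [Fact p.Prime] {P : Type*} [Group P]

theorem low_block (S : Finset ℕ) (T : ℕ → Finset ℕ)
    (hT : ∀ i ∈ S, ∀ j ∈ S, i ≠ j → Disjoint (T i) (T j)) (x : ℕ → P) (i : ℕ) :
    Low p S (fun J => if i ∈ J.biUnion T then el p (x i) else 1) := by
  classical
  by_cases h : ∃ j ∈ S, i ∈ T j
  · obtain ⟨j, hj, hij⟩ := h
    refine (Low.single p S j (x i)).congr p ?_
    intro J hJ
    have : i ∈ J.biUnion T ↔ j ∈ J := by
      rw [mem_biUnion]
      constructor
      · rintro ⟨j', hj', hij'⟩
        by_contra hne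
        have hjj' : j ≠ j' := fun h => hne (h ▸ hj')
        exact (Finset.disjoint_left.mp (hT j hj j' (hJ hj') hjj')) hij hij'
      · intro hj'
        exact ⟨j, hj', hij⟩
    simp only [this]
  · refine (Low.one p S).congr p ?_
    intro J hJ
    rw [if_neg]
    intro hi
    obtain ⟨j, hj, hij⟩ := mem_biUnion.mp hi
    exact h ⟨j, hJ hj, hij⟩

theorem low_oprod (S : Finset ℕ) (T : ℕ → Finset ℕ)
    (hT : ∀ i ∈ S, ∀ j ∈ S, i ≠ j → Disjoint (T i) (T j)) (x : ℕ → P) (l : List ℕ) :
    Low p S (fun J => (l.map (fun i => if i ∈ J.biUnion T then el p (x i) else 1)).prod) := by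
  classical
  induction l with
  | nil => exact (Low.one p S).congr p (fun J _ => rfl)
  | cons a l ih =>
    refine ((low_block p S T hT x a).mul p ih).congr p ?_
    intro J _
    rw [List.map_cons, List.prod_cons]

/-- Among `2|P|-1` disjoint blocks there are `|P|` whose union has ordered product one. -/
theorem exists_blocks [Finite P] (hP : IsPGroup p P) (T : ℕ → Finset ℕ)
    (hT : ∀ i < 2 * Nat.card P - 1, ∀ j < 2 * Nat.card P - 1, i ≠ j → Disjoint (T i) (T j))
    (x : ℕ → P) (N : ℕ) :
    ∃ J ⊆ range (2 * Nat.card P - 1), J.card = Nat.card P ∧ oprod x N (J.biUnion T) = 1 := by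
  classical
  have hlow := low_oprod p (range (2 * Nat.card P - 1)) T
    (fun i hi j hj => hT i (mem_range.mp hi) j (mem_range.mp hj)) x (List.range N)
  have hsum := hlow.sum_powersetCard p hP (card_range _)
  have hval : ∀ J : Finset ℕ,
      ((List.range N).map (fun i => if i ∈ J.biUnion T then el p (x i) else 1)).prod
        = el p (oprod x N (J.biUnion T)) := by
    intro J
    exact (oprod_map (MonoidAlgebra.of (ZMod p) P) x N (J.biUnion T)).symm
  simp only [hval] at hsum
  have h0 : oprod x N ((∅ : Finset ℕ).biUnion T) = 1 := by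
    unfold oprod
    rw [biUnion_empty]
    have : (List.range N).map (fun i => if i ∈ (∅ : Finset ℕ) then x i else 1)
        = (List.range N).map (fun _ => (1 : P)) := by
      apply List.map_congr_left
      intro i _
      rw [if_neg (notMem_empty i)]
    rw [this]
    simp
  rw [h0, el_one] at hsum
  by_contra hcon
  push Not at hcon
  have h1 := congrArg (fun r : GR p P => r.coeff 1) hsum
  simp only [MonoidAlgebra.coeff_sum, Finsupp.coe_finsetSum, Finset.sum_apply] at h1
  have h2 : ∀ g : P, (el p g).coeff 1 = if g = 1 then (1 : ZMod p) else 0 := by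
    intro g
    unfold el
    rw [MonoidAlgebra.of_apply, MonoidAlgebra.coeff_single, Finsupp.single_apply]
  have h3 : (1 : GR p P).coeff 1 = (1 : ZMod p) := by
    have := h2 1
    rw [el_one, if_pos rfl] at this
    exact this
  rw [h3, Finset.sum_eq_zero] at h1
  · exact zero_ne_one h1
  · intro J hJ
    rw [mem_powersetCard] at hJ
    rw [h2, if_neg (hcon J hJ.1 hJ.2)]

theorem core [Finite P] (hP : IsPGroup p P) {A : Type*} [CommGroup A] [Finite A]
    (x : ℕ → P) (y : ℕ → A) :
    ∃ I ⊆ range (2 * (Nat.card P * Nat.card A) - 1), I.card = Nat.card P * Nat.card A ∧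
      oprod x (2 * (Nat.card P * Nat.card A) - 1) I = 1 ∧ ∏ i ∈ I, y i = 1 := by
  classical
  have hPpos : 0 < Nat.card P := Nat.card_pos
  have hE : EGZ A := EGZ.all _ A rfl
  obtain ⟨T, hT1, hT2⟩ := hE.extract y (2 * Nat.card P - 1)
    (range (2 * (Nat.card P * Nat.card A) - 1)) (by
      rw [card_range, Nat.sub_add_cancel (by omega), mul_assoc])
  obtain ⟨J, hJ, hJc, hJp⟩ := exists_blocks p hP T hT2 x (2 * (Nat.card P * Nat.card A) - 1)
  have hJlt : ∀ j ∈ J, j < 2 * Nat.card P - 1 := fun j hj => mem_range.mp (hJ hj)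
  have hdis : (J : Set ℕ).PairwiseDisjoint T := by
    intro i hi j hj hij
    exact hT2 i (hJlt i hi) j (hJlt j hj) hij
  refine ⟨J.biUnion T, ?_, ?_, hJp, ?_⟩
  · intro i hi
    obtain ⟨j, hj, hij⟩ := mem_biUnion.mp hi
    exact (hT1 j (hJlt j hj)).1 hij
  · rw [card_biUnion (fun i hi j hj hij => hdis hi hj hij),
      sum_congr rfl (fun j hj => (hT1 j (hJlt j hj)).2.1), sum_const, smul_eq_mul, hJc]
  · rw [prod_biUnion hdis]
    exact prod_eq_one fun j hj => (hT1 j (hJlt j hj)).2.2

end Pool.Agent.H99.OrderedEGZ
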